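import Mathlib
import Pool.Agent.Y428.Tu.Flo
import Pool.Agent.Results.MP_08beec_co.DenseFlowRoots

/-!
# An explicit upper bound for the real flow roots, and the size of flow polynomials above it

`4 + 2√2 ≤ d* ≤ 10^(10^13)`, and for large `q` the flow polynomial of every bridgeless graph is
`(q-1)^|E| / q^(|V|-c)` up to a factor `(1 ± δ)^(|V|-c)`.
-/

set_option autoImplicit false
set_option maxHeartbeats 1000000

open Finset Pool.Agent.H753R2.FR Pool.Agent.Y428.Tu

namespace Pool.Agent.Results.MP_08beec_co.DStarExplicit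

/-- the number of connected components of the spanning subgraph with edge set `A` of the multigraph
with vertex set `V` and edge set `E`, `ends e` being the unordered pair of ends of `e` (loops and
parallel edges are allowed) -/
noncomputable def comps {V E : Type} (ends : E → Sym2 V) (A : Set E) : ℕ :=
  Nat.card (SimpleGraph.fromEdgeSet (ends '' A)).ConnectedComponent

/-- no edge is a bridge: removing an edge never changes the number of components -/
def Bridgeless {V E : Type} (ends : E → Sym2 V) : Prop :=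
  ∀ e : E, comps ends {e}ᶜ = comps ends Set.univ

/-- the flow polynomial `F(G,q) = ∑_{A ⊆ E} (-1)^{|E|-|A|} q^{|A|-|V|+k(A)}` -/
noncomputable def F {V E : Type} [Fintype V] [Fintype E] (ends : E → Sym2 V) (q : ℝ) : ℝ :=
  ∑ A : Finset E, (-1 : ℝ) ^ (Fintype.card E - A.card) *
    q ^ (A.card + comps ends (A : Set E) - Fintype.card V)

/-- the set of all real flow roots of bridgeless multigraphs -/
def flowRoots : Set ℝ :=
  {q | ∃ (V E : Type) (_ : Fintype V) (_ : Fintype E) (ends : E → Sym2 V),
    Bridgeless ends ∧ F ends q = 0}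

/-- the supremum `d*` of the real flow roots -/
noncomputable def dStar : ℝ := sSup flowRoots

theorem consts : 8 * MM ^ 2 + 8 ≤ (10 : ℝ) ^ (10 ^ 13) ∧ (8 : ℝ) ≤ (10 : ℝ) ^ (10 ^ 13) := by
  have h1 := MM_le
  have h2 := sq_nonneg MM
  constructor <;> linarith

theorem bridgeless_conn {V E : Type} [DecidableEq V] [DecidableEq E] [Fintype V] [Fintype E]
    (ends : E → Sym2 V) (h : Bridgeless ends) (e : E) :
    (conn (grS ends) (univ.erase e)) ((grS ends).x e) ((grS ends).y e) := by
  have h1 := h e
  unfold comps at h1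
  have e1 : ({e}ᶜ : Set E) = ((univ.erase e : Finset E) : Set E) := by
    ext x
    simp
  have e2 : (Set.univ : Set E) = ((univ : Finset E) : Set E) := by simp
  rw [e1, e2, clS_eq, clS_eq] at h1
  by_contra hcon
  have h3 := cl_sup_pr_of_not hcon
  rw [← conn_insert, Finset.insert_erase (Finset.mem_univ e)] at h3
  omega

theorem two_bound {V E : Type} [Fintype V] [Fintype E] (ends : E → Sym2 V)
    (hb : Bridgeless ends) {q δ : ℝ} (hq : 4 * MM ^ 2 + 3 ≤ q) (hδ : 4 * MM ^ 2 ≤ δ * q)
    (hδ1 : δ ≤ 1) :
    (1 - δ) ^ (Fintype.card V - comps ends Set.univ) *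
      ((q - 1) ^ Fintype.card E / q ^ (Fintype.card V - comps ends Set.univ)) ≤ F ends q ∧
    F ends q ≤ (1 + δ) ^ (Fintype.card V - comps ends Set.univ) *
      ((q - 1) ^ Fintype.card E / q ^ (Fintype.card V - comps ends Set.univ)) := by
  classical
  have e2 : (Set.univ : Set E) = ((univ : Finset E) : Set E) := by simp
  rcases isEmpty_or_nonempty V with hV | hV
  · have hE : IsEmpty E := by
      constructor
      intro e
      exact hV.elim (Quot.out (ends e)).1
    have hc : comps ends Set.univ = 0 := by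
      rw [e2]
      unfold comps
      rw [clS_eq]
      have := E1.cl_le_card (conn (grS ends) univ)
      rw [Fintype.card_eq_zero] at this
      omega
    have hF : F ends q = 1 := by
      unfold F
      rw [Finset.sum_eq_single (∅ : Finset E)]
      · simp
        unfold comps
        have h1 : Nat.card (SimpleGraph.fromEdgeSet (ends '' ((∅ : Finset E) : Set E))).ConnectedComponent
            = 0 := by
          rw [clS_eq]
          have := E1.cl_le_card (conn (grS ends) (∅ : Finset E))
          rw [Fintype.card_eq_zero] at this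
          omega
        rw [Finset.coe_empty] at h1
        rw [h1, pow_zero]
      · intro A _ hA
        exact absurd (Finset.eq_empty_of_isEmpty A) hA
      · intro h
        exact absurd (Finset.mem_univ _) h
    rw [hF, hc, Fintype.card_eq_zero, Fintype.card_eq_zero]
    norm_num
  · have h1 := flow_two (grS ends) hq hδ hδ1 (bridgeless_conn ends hb)
    have h2 : F ends q = ∑ A : Finset E, (-1 : ℝ) ^ (Fintype.card E - A.card) *
        q ^ (A.card + cl (conn (grS ends) A) - Fintype.card V) := by
      unfold F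
      refine Finset.sum_congr rfl fun A _ => ?_
      unfold comps
      rw [clS_eq]
    have h3 : comps ends Set.univ = cl (conn (grS ends) univ) := by
      rw [e2]
      unfold comps
      rw [clS_eq]
    rw [h2, h3]
    exact h1

theorem pos_above {V E : Type} [Fintype V] [Fintype E] (ends : E → Sym2 V)
    (hb : Bridgeless ends) {q : ℝ} (hq : (10 : ℝ) ^ (10 ^ 13) ≤ q) : 0 < F ends q := by
  obtain ⟨hc1, hc2⟩ := consts
  have h1 := (two_bound ends hb (q := q) (δ := 1 / 2) (by nlinarith [sq_nonneg MM]) (by linarith)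
    (by norm_num)).1
  refine lt_of_lt_of_le ?_ h1
  have hq0 : 0 < q := by linarith
  have hq1 : 0 < q - 1 := by linarith
  positivity

theorem roots_le {q : ℝ} (hq : q ∈ flowRoots) : q ≤ (10 : ℝ) ^ (10 ^ 13) := by
  obtain ⟨V, E, iV, iE, ends, hb, h0⟩ := hq
  by_contra h
  push Not at h
  have := pos_above ends hb h.le
  rw [h0] at this
  exact lt_irrefl _ this

theorem roots_near (a : ℝ) (ha : a < 4 + 2 * Real.sqrt 2) : ∃ q ∈ flowRoots, a < q := by
  have hs : 0 < Real.sqrt 2 := Real.sqrt_pos.2 (by norm_num)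
  obtain ⟨V, E, iV, iE, ends, hbr, q, h1, _, h3⟩ := DenseFlowRoots.result (max a 4)
    (4 + 2 * Real.sqrt 2) (le_max_right _ _) (max_lt ha (by linarith)) le_rfl
  refine ⟨q, ⟨V, E, iV, iE, ends, hbr, ?_⟩, lt_of_le_of_lt (le_max_left _ _) h1⟩
  unfold F comps
  rw [← Finset.powerset_univ]
  exact h3

/-- (1) `4 + 2√2 ≤ d* ≤ 10^(10^13)`. (2) For `0 < δ ≤ 1` and `δ q ≥ 10^(10^13)` the flow polynomial
of every bridgeless multigraph with vertex set `V`, edge set `E` and `c` components satisfies
`(1-δ)^(|V|-c) ≤ F(G,q) q^(|V|-c) / (q-1)^|E| ≤ (1+δ)^(|V|-c)`. -/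
theorem result :
    (BddAbove flowRoots ∧ 4 + 2 * Real.sqrt 2 ≤ dStar ∧ dStar ≤ (10 : ℝ) ^ (10 ^ 13)) ∧
    ∀ (V E : Type) [Fintype V] [Fintype E] (ends : E → Sym2 V), Bridgeless ends →
      ∀ q δ : ℝ, 0 < δ → δ ≤ 1 → (10 : ℝ) ^ (10 ^ 13) ≤ δ * q →
      (1 - δ) ^ (Fintype.card V - comps ends Set.univ) *
        ((q - 1) ^ Fintype.card E / q ^ (Fintype.card V - comps ends Set.univ)) ≤ F ends q ∧
      F ends q ≤ (1 + δ) ^ (Fintype.card V - comps ends Set.univ) *
        ((q - 1) ^ Fintype.card E / q ^ (Fintype.card V - comps ends Set.univ)) := by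
  have hbd : BddAbove flowRoots := ⟨(10 : ℝ) ^ (10 ^ 13), fun q hq => roots_le hq⟩
  refine ⟨⟨hbd, ?_, ?_⟩, ?_⟩
  · refine le_of_forall_lt fun a ha => ?_
    obtain ⟨q, hq, haq⟩ := roots_near a ha
    exact lt_of_lt_of_le haq (le_csSup hbd hq)
  · obtain ⟨q, hq, _⟩ := roots_near 0 (by
      have hs : 0 < Real.sqrt 2 := Real.sqrt_pos.2 (by norm_num)
      linarith)
    exact csSup_le ⟨q, hq⟩ fun q hq => roots_le hq
  · intro V E _ _ ends hb q δ hδ0 hδ1 hq
    obtain ⟨hc1, hc2⟩ := consts
    have hq0 : 0 < q := by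
      by_contra h
      push Not at h
      have := mul_nonpos_of_nonneg_of_nonpos hδ0.le h
      linarith
    have hδq : δ * q ≤ q := by nlinarith
    exact two_bound ends hb (by nlinarith [sq_nonneg MM]) (by nlinarith [sq_nonneg MM]) hδ1

end Pool.Agent.Results.MP_08beec_co.DStarExplicit
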